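import Pool.Agent.NDR.StmtsL

/-!
# Squad NDL, row PPL (helper39)

The set `Q` of the coordinates of `I` at which `μ₀` has value exactly `1` together with `μ = μ₀` has all the required properties.
-/

set_option autoImplicit false

namespace Pool.Agent.NDR.H39

open Finset

/-- row PPL: the coordinates which are forced to be 1 -/
theorem ppl : PplStmt := by
  classical
  intro σ _ A I P μ₀ γ hγ hPI hpos hge hone
  refine ⟨I.filter (fun i => cmb A μ₀ i = 1), μ₀, ?_, Finset.filter_subset _ _, hpos, ?_, ?_, ?_⟩
  · intro i hi
    exact Finset.mem_filter.mpr ⟨hPI hi, hone i hi⟩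
  · intro i hi
    exact (Finset.mem_filter.mp hi).2
  · intro i hi hiQ
    rcases lt_or_eq_of_le (hge i hi) with h | h
    · exact h
    · exact absurd (Finset.mem_filter.mpr ⟨hi, h.symm⟩) hiQ
  · linarith

end Pool.Agent.NDR.H39
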